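import Pool.Agent.J6H7.GX.Sym.Defs

/-!
# Extension variables with shallow decision trees together with symmetric families: definitions

There are three kinds of extension variables:

* any number of shallow extension variables `e : E`, which stand for decision trees,
* the gates `g : I` of a symmetric circuit (`SymGates`),
* `k` further extension variables, which stand for arbitrary formulas.
-/

set_option autoImplicit false

namespace Pool.Agent.J6H7.GX

open Finset Pool.Agent.Helper600R2.Cnt

/-- The definitions of the shallow and of the further extension variables (in the presence of the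
gates `g : I`). The further extension variable `j` stands for the formula `D j`. The shallow
extension variable `e` stands for the decision tree `tree e β`, where `β : Fin k → Bool` are the
truth values of the further extension variables. The definitions are acyclic: `tree e β` only
depends on the truth values of the further extension variables with an index less than `lev e`, and
`D j` contains only variables of the counting principle, gates, shallow extension variables `e` with
`lev e ≤ j`, and further extension variables with an index less than `j`. -/
structure MixSys (p q N k : ℕ) (E I : Type) where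
  D : Fin k → Fm p (XVar q N (E ⊕ I) k)
  tree : E → (Fin k → Bool) → DTree N
  lev : E → ℕ
  tree_lev : ∀ (e : E) (β β' : Fin k → Bool), (∀ i : Fin k, (i : ℕ) < lev e → β i = β' i) →
    tree e β = tree e β'
  D_lev : ∀ j : Fin k, Uses (fun x => (∀ e, x = .inr (.inl (.inl e)) → lev e ≤ j) ∧
    ∀ i : Fin k, x = .inr (.inr i) → i < j) (D j)

variable {p q N k : ℕ} {E I : Type}

/-- The truth value of the formula is determined to be `b` by the partial partition `π` and the
truth values `β` of the further extension variables:

* a variable `A` of the counting principle is true if `A ∈ π`, and it is false if `A ∉ π` and `A`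
  contains a point that is covered by `π`,
* a shallow extension variable has the value `b` if its tree has the output `b` for `π`,
* a disjunction is true if one of its members is true, and false if all of them are false,
* gates, and formulas that begin with a `MOD` gate, are not determined. -/
def MDet (X : MixSys p q N k E I) (β : Fin k → Bool) (π : PS N) :
    Fm p (XVar q N (E ⊕ I) k) → Bool → Prop
  | .var (.inl A), b => if b = true then A.1 ∈ π else A.1 ∉ π ∧ ¬ Disjoint A.1 (cov π)
  | .var (.inr (.inl (.inl e))), b => (X.tree e β).Out π b
  | .var (.inr (.inl (.inr _))), _ => False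
  | .var (.inr (.inr j)), b => β j = b
  | .neg φ, b => MDet X β π φ (!b)
  | .or _ φs, b => if b = true then ∃ j, MDet X β π (φs j) true else ∀ j, MDet X β π (φs j) false
  | .md _ _ _, _ => False

/-- `φ` is verified by decision trees of depth at most `N / M`: for all truth values `β` of the
further extension variables there is such a tree so that `φ` is determined to be true by each
partial partition that leads the tree to a leaf. For instance, `φ` may be

* a clause of the counting principle,
* an extension axiom `e ∨ ¬ Ψ` or `¬ e ∨ Ψ` of a shallow extension variable `e`, if `Ψ` is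
  determined by the answers to the questions of its tree. -/
def MixAx (X : MixSys p q N k E I) (M : ℕ) (φ : Fm p (XVar q N (E ⊕ I) k)) : Prop :=
  ∀ β : Fin k → Bool, ∃ T : DTree N, T.depth * M ≤ N ∧
    ∀ (π : PS N) (b : Bool), IsPP q π → T.Out π b → MDet X β π φ true

/-- The literal of a gate as a formula. -/
def litM (x : Var q N ⊕ I) (b : Bool) : Fm p (XVar q N (E ⊕ I) k) :=
  if b = true then .var (Sum.elim .inl (fun h => .inr (.inl (.inr h))) x)
  else .neg (.var (Sum.elim .inl (fun h => .inr (.inl (.inr h))) x))

/-- The formulas which can be derived from the clauses of the counting principle modulo `q` with the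
extension variables of `X` and the gates of the symmetric circuit `G` as extension variables, if all
formulas have to be in `𝒰`:

* `clause`: the clauses of the counting principle,
* `tree`: all formulas which are verified by decision trees of depth at most `N / M`, in particular
  the extension axioms of the shallow extension variables,
* `gate₁`: `g ∨ ¬ ℓ` for a gate `g` and one of its literals `ℓ`,
* `gate₂`: a disjunction which contains `¬ g` and all literals of the gate `g`,
* `def₁`, `def₂`: the extension axioms `w ∨ ¬ D` and `¬ w ∨ D` of a further extension variable `w`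
  which stands for `D`,
* `inf`: `φ` follows from at most `c` derivable formulas by an inference which only depends on the
  meaning of the `MOD` gates and of the outermost connectives of at most `c` formulas of `𝒰`. -/
inductive MDer (c M : ℕ) (X : MixSys p q N k E I) [MulAction (Equiv.Perm (Fin N)) I]
    (G : SymGates q N I) (𝒰 : Finset (Fm p (XVar q N (E ⊕ I) k))) :
    Fm p (XVar q N (E ⊕ I) k) → Prop
  | clause {φ : Fm p (XVar q N (E ⊕ I) k)} : φ ∈ 𝒰 → IsClause φ → MDer c M X G 𝒰 φ
  | tree {φ : Fm p (XVar q N (E ⊕ I) k)} : φ ∈ 𝒰 → MixAx X M φ → MDer c M X G 𝒰 φ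
  | gate₁ (g : I) (x : Var q N ⊕ I) (b : Bool) : (x, b) ∈ G.ch g →
      .or 2 ![.var (.inr (.inl (.inr g))), .neg (litM x b)] ∈ 𝒰 →
      MDer c M X G 𝒰 (.or 2 ![.var (.inr (.inl (.inr g))), .neg (litM x b)])
  | gate₂ (g : I) (t : ℕ) (φs : Fin t → Fm p (XVar q N (E ⊕ I) k)) : .or t φs ∈ 𝒰 →
      (∃ j, φs j = .neg (.var (.inr (.inl (.inr g))))) →
      (∀ x b, (x, b) ∈ G.ch g → ∃ j, φs j = litM x b) →
      MDer c M X G 𝒰 (.or t φs)
  | def₁ (j : Fin k) : .or 2 ![.var (.inr (.inr j)), .neg (X.D j)] ∈ 𝒰 →
      MDer c M X G 𝒰 (.or 2 ![.var (.inr (.inr j)), .neg (X.D j)])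
  | def₂ (j : Fin k) : .or 2 ![.neg (.var (.inr (.inr j))), X.D j] ∈ 𝒰 →
      MDer c M X G 𝒰 (.or 2 ![.neg (.var (.inr (.inr j))), X.D j])
  | inf {φ : Fm p (XVar q N (E ⊕ I) k)} (P Q : Finset (Fm p (XVar q N (E ⊕ I) k))) :
      φ ∈ 𝒰 → P.card ≤ c → Q.card ≤ c → Q ⊆ 𝒰 → (∀ χ ∈ P, MDer c M X G 𝒰 χ) →
      (∀ V : Fm p (XVar q N (E ⊕ I) k) → Bool, RespMod V → (∀ χ ∈ Q, RespAt V χ) →
        (∀ χ ∈ P, V χ = true) → V φ = true) → MDer c M X G 𝒰 φ

end Pool.Agent.J6H7.GX
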