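import Pool.Agent.J6H7.GX.Mix.Tree
import Pool.Agent.J6H7.GX.Sym.Final

/-!
# The lower bound for all kinds of extension variables
-/

set_option linter.unusedSectionVars false
set_option autoImplicit false

namespace Pool.Agent.J6H7.GX.Mix

open Finset Filter Pool.Agent.Helper600R2.Cnt
open scoped Pointwise

/-- **The lower bound for shallow extension variables and symmetric families.** -/
theorem mix_lower (p q : ℕ) (hp : p.Prime) (hq : 2 ≤ q) (hpq : ¬ p ∣ q) (d c : ℕ) :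
    ∃ δ : ℝ, 0 < δ ∧ ∀ᶠ M : ℕ in atTop, ∀ N : ℕ, M ≤ N → ∀ (k : ℕ) (E I : Type) [Fintype I]
      [MulAction (Equiv.Perm (Fin N)) I] (X : MixSys p q N k E I) (G : SymGates q N I)
      (𝒰 : Finset (Fm p (XVar q N (E ⊕ I) k))), SubClosed 𝒰 →
      (∀ e β, (X.tree e β).depth * M ≤ N) → Fintype.card I ≤ 2 ^ (N / M) →
      (∀ j, X.D j ∈ 𝒰) → (∀ φ ∈ 𝒰, φ.depth ≤ d) →
      (∀ φ ∈ 𝒰, (φ.tops.card : ℝ) ≤ (M : ℝ) ^ δ) → (k : ℝ) ≤ (M : ℝ) ^ δ →
      (𝒰.card : ℝ) ≤ (2 : ℝ) ^ ((M : ℝ) ^ δ) → ∀ f, ¬ MDer c M X G 𝒰 (.or 0 f) := by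
  obtain ⟨δ, hδ, hlow⟩ := lower p q hp hq hpq d c
  obtain ⟨K, hK⟩ : ∃ K, K = (q + 2) * (q + 3) := ⟨_, rfl⟩
  have hK1 : 1 ≤ K := by rw [hK]; exact Nat.mul_pos (by omega) (by omega)
  refine ⟨δ / 2, by positivity, ?_⟩
  have hdiv : Tendsto (fun M : ℕ => M / K) atTop atTop :=
    Nat.tendsto_div_const_atTop (by omega)
  filter_upwards [hdiv.eventually hlow, eventually_ge_atTop (4 * K ^ 2),
    eventually_ge_atTop (10 * K)] with M h1 h2 h3
  intro N hMN k E I _ _ X G 𝒰 hcl hX hI hD hd hG hk hU f hder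
  have hb := rpow_bound hδ hK1 h2
  rw [hK] at h3
  obtain ⟨m, s, p1, p2, p3, p4, p5, p6, p7⟩ := sym_params (by omega) h3 hMN
  rw [← hK] at p7
  have hsupp : ∀ g : I, ∃ S : Finset (Fin N), S.card < 2 * m ∧ Supp g S :=
    exists_supp p1 p2 (hI.trans_lt p3)
  choose S hS1 hS2 using hsupp
  have hSs : ∀ g, (S g).card ≤ s := fun g => (hS1 g).le.trans p4
  have hE : EDer c (M / K) (mixSys G s S X) 𝒰 (.or 0 f) :=
    MDer.toEDer hS2 hSs p5 (by omega) p6 (Nat.div_le_self M K) p7 hder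
  refine h1 N ((Nat.div_le_self M K).trans hMN) k (E ⊕ I) (mixSys G s S X) 𝒰 hcl ?_ hD hd
    (fun φ hφ => (hG φ hφ).trans hb) (hk.trans hb)
    (hU.trans (Real.rpow_le_rpow_of_exponent_le (by norm_num) hb)) f hE
  rintro (e | g) β
  · exact (Nat.mul_le_mul_left _ (Nat.div_le_self M K)).trans (hX e β)
  classical
  have e1 : ((mixSys G s S X).tree (.inr g) β).depth ≤ s := by
    have := askF_depth (S g) (fun τ => DTree.leaf (decide (TV G s g τ))) 0 (fun _ => le_rfl)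
    have h5 := hSs g
    exact this.trans (by omega)
  refine le_trans (Nat.mul_le_mul_right _ ?_) p7
  exact e1.trans (Nat.le_mul_of_pos_left s (by omega))

end Pool.Agent.J6H7.GX.Mix
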