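import Pool.Agent.J6H7.GX.Mix.Defs
import Pool.Agent.J6H7.GX.Sym.Tree

/-!
# Decision trees for all kinds of extension variables
-/

set_option linter.unusedSectionVars false
set_option autoImplicit false

namespace Pool.Agent.J6H7.GX.Mix

open Finset Pool.Agent.Helper600R2.Cnt
open scoped Pointwise

section sys

variable {p q N k : ℕ} {E I : Type} [MulAction (Equiv.Perm (Fin N)) I] [Fintype I]
  (G : SymGates q N I) (s : ℕ) (S : I → Finset (Fin N)) (X : MixSys p q N k E I)

open Classical in
/-- the trees for the gates of the symmetric circuit -/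
noncomputable def mixSys : ExtSys p q N k (E ⊕ I) where
  D := X.D
  tree := Sum.elim X.tree (fun g _ => askF (S g) (fun τ => .leaf (decide (TV G s g τ))))
  lev := Sum.elim X.lev (fun _ => 0)
  tree_lev := by
    rintro (e | g) β β' h
    · exact X.tree_lev e β β' h
    · rfl
  D_lev := by
    intro j
    refine (X.D_lev j).imp (fun x hx => ⟨?_, hx.2⟩)
    rintro (e | g) h
    · exact hx.1 e h
    · exact Nat.zero_le _

variable {G s S X}

/-- determined formulas remain determined -/
lemma _root_.Pool.Agent.J6H7.GX.MDet.toDet {β : Fin k → Bool} {π : PS N} : ∀ (φ : Fm p (XVar q N (E ⊕ I) k)) (b : Bool),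
    MDet X β π φ b → Det (mixSys G s S X) β π φ b
  | .var (.inl A), b, h => h
  | .var (.inr (.inl (.inl e))), b, h => h
  | .var (.inr (.inl (.inr _))), _, h => h.elim
  | .var (.inr (.inr j)), b, h => h
  | .neg φ, b, h => MDet.toDet φ (!b) h
  | .or _ φs, b, h => by
      cases b with
      | true =>
        simp only [MDet, Det, if_true] at h ⊢
        obtain ⟨j, hj⟩ := h
        exact ⟨j, MDet.toDet (φs j) true hj⟩
      | false =>
        simp only [MDet, Det, Bool.false_eq_true, if_false] at h ⊢
        exact fun j => MDet.toDet (φs j) false (h j)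
  | .md _ _ _, _, h => h.elim

/-- verified formulas remain verified -/
lemma _root_.Pool.Agent.J6H7.GX.MixAx.toTreeAx {M M' : ℕ} (hM : M' ≤ M) {φ : Fm p (XVar q N (E ⊕ I) k)}
    (h : MixAx X M φ) : TreeAx (mixSys G s S X) M' φ := by
  intro β
  obtain ⟨T, h1, h2⟩ := h β
  exact ⟨T, (Nat.mul_le_mul_left _ hM).trans h1, fun π b hπ hT => (h2 π b hπ hT).toDet φ true⟩

lemma det_gate {β : Fin k → Bool} {π : PS N} (hπ : IsPP q π) {g : I} (hg : S g ⊆ cov π)
    {b : Bool} (hb : TV G s g (mt (S g) π) ↔ b = true) :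
    Det (mixSys G s S X) β π (.var (.inr (.inl (.inr g)))) b := by
  classical
  show (askF (S g) (fun τ => .leaf (decide (TV G s g τ)))).Out π b
  rw [askF_out hπ]
  refine ⟨hg, ?_⟩
  show decide (TV G s g (mt (S g) π)) = b
  cases b with
  | true => exact decide_eq_true (hb.mpr rfl)
  | false => exact decide_eq_false (fun h => by simpa using hb.mp h)

lemma det_var {β : Fin k → Bool} {π : PS N} (hq : 1 ≤ q) (hπ : IsPP q π) (x : Var q N ⊕ I)
    (hx : covset S x ⊆ cov π) {b : Bool} (hb : vx G s S π x ↔ b = true) :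
    Det (mixSys G s S X) β π
      (.var (Sum.elim .inl (fun h => .inr (.inl (.inr h))) x : XVar q N (E ⊕ I) k)) b := by
  rcases x with A | h
  · simp only [covset, Sum.elim_inl] at hx
    simp only [vx] at hb
    simp only [Sum.elim_inl, Det]
    cases b with
    | true => simp only [if_true]; exact hb.mpr rfl
    | false =>
      simp only [Bool.false_eq_true, if_false]
      refine ⟨fun h => by simpa using hb.mp h, ?_⟩
      obtain ⟨v, hv⟩ : A.1.Nonempty := by
        rw [← card_pos, A.2]; omega
      exact Finset.not_disjoint_iff.mpr ⟨v, hv, hx hv⟩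
  · simp only [covset, Sum.elim_inr] at hx
    exact det_gate hπ hx hb

lemma det_lit {β : Fin k → Bool} {π : PS N} (hq : 1 ≤ q) (hπ : IsPP q π) (x : Var q N ⊕ I)
    (hx : covset S x ⊆ cov π) {b : Bool} (hb : vx G s S π x ↔ b = true) :
    Det (mixSys G s S X) β π (litM x b) true := by
  unfold litM
  cases b with
  | true =>
    simp only [if_true]
    exact det_var hq hπ x hx hb
  | false =>
    simp only [Bool.false_eq_true, if_false, Det, Bool.not_true]
    exact det_var hq hπ x hx hb

lemma det_lit' {β : Fin k → Bool} {π : PS N} (hq : 1 ≤ q) (hπ : IsPP q π) (x : Var q N ⊕ I)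
    (hx : covset S x ⊆ cov π) {b : Bool} (hb : ¬ (vx G s S π x ↔ b = true)) :
    Det (mixSys G s S X) β π (.neg (litM x b)) true := by
  unfold litM
  cases b with
  | true =>
    simp only [if_true, Det, Bool.not_true]
    refine det_var hq hπ x hx ?_
    simp only [iff_true] at hb
    simp [hb]
  | false =>
    simp only [Bool.false_eq_true, if_false, Det, Bool.not_true, Bool.not_false]
    refine det_var hq hπ x hx ?_
    simp only [Bool.false_eq_true, iff_false, not_not] at hb
    simp [hb]

variable (hS : ∀ g, Supp g (S g)) (hSs : ∀ g, (S g).card ≤ s) (hqs : q ≤ s)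

include hS hSs hqs in
theorem gate₁_treeAx (hq : 1 ≤ q) {M : ℕ} (hM : (q + 2) * s * M ≤ N) {g : I} {x : Var q N ⊕ I}
    {b : Bool} (hx : (x, b) ∈ G.ch g) :
    TreeAx (mixSys G s S X) M (.or 2 ![.var (.inr (.inl (.inr g))), .neg (litM x b)]) := by
  classical
  intro β
  refine ⟨askF (S g ∪ covset S x) (fun _ => .leaf true), ?_, ?_⟩
  · have h1 := askF_depth (S g ∪ covset S x) (fun _ : PS N => DTree.leaf true) 0
      (fun _ => le_rfl)
    have h2 := card_union_le (S g) (covset S x)
    have h3 := hSs g
    have h4 := covset_card hSs hqs x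
    refine le_trans (Nat.mul_le_mul_right M ?_) hM
    have h5 : 2 * s ≤ (q + 2) * s := Nat.mul_le_mul_right s (by omega)
    omega
  · intro π b' hπ hout
    obtain ⟨h1, -⟩ := (askF_out hπ _ _ _).mp hout
    have hg : S g ⊆ cov π := subset_union_left.trans h1
    have hxc : covset S x ⊆ cov π := subset_union_right.trans h1
    simp only [Det, if_true]
    by_cases hv : vx G s S π x ↔ b = true
    · refine ⟨0, ?_⟩
      show Det _ β π (.var (.inr (.inl (.inr g))) : Fm p (XVar q N (E ⊕ I) k)) true
      refine det_gate hπ hg ?_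
      simp only [iff_true]
      rw [TV_iff]
      refine ⟨x, b, hx, mt (covset S x) π, ?_, ?_, ?_⟩
      · exact (card_mt_le hπ _).trans (covset_card hSs hqs x)
      · exact hπ.mono (union_subset (mt_subset _ _) (mt_subset _ _))
      · rcases x with A | h
        · simp only [covset, Sum.elim_inl] at hxc ⊢
          simp only [vx] at hv
          refine ⟨cov_mt hxc, ?_⟩
          rw [← hv, mem_mt]
          obtain ⟨v, hv'⟩ : A.1.Nonempty := by
            rw [← card_pos, A.2]; omega
          exact ⟨fun h => h.1, fun h => ⟨h, v, hv', hv'⟩⟩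
        · simp only [covset, Sum.elim_inr] at hxc ⊢
          exact ⟨⟨S h, hS h, cov_mt hxc⟩, hv⟩
    · exact ⟨1, det_lit' hq hπ x hxc hv⟩

include hS hSs hqs in
theorem gate₂_treeAx (hq : 1 ≤ q) (hroom : q * (3 * s) + 2 ≤ N) {M : ℕ}
    (hM : (q + 2) * s * M ≤ N) {g : I} {t : ℕ}
    {φs : Fin t → Fm p (XVar q N (E ⊕ I) k)} (hg : ∃ j, φs j = .neg (.var (.inr (.inl (.inr g)))))
    (hl : ∀ x b, (x, b) ∈ G.ch g → ∃ j, φs j = litM x b) :
    TreeAx (mixSys G s S X) M (.or t φs) := by
  classical
  intro β
  let f2 : PS N → PS N → DTree N := fun τ0 τ1 =>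
    askF (wit G s S g (τ0 ∪ τ1)) (fun _ => .leaf true)
  let f1 : PS N → DTree N := fun τ0 =>
    if TV G s g τ0 then askF (frF q s τ0) (f2 τ0) else .leaf true
  have d2 : ∀ τ0 τ1, (f2 τ0 τ1).depth ≤ s := by
    intro τ0 τ1
    have h1 := askF_depth (wit G s S g (τ0 ∪ τ1)) (fun _ : PS N => DTree.leaf true) 0
      (fun _ => le_rfl)
    have h2 := wit_card (G := G) hSs hqs g (τ0 ∪ τ1)
    show (askF (wit G s S g (τ0 ∪ τ1)) (fun _ => .leaf true)).depth ≤ s
    omega
  have d1 : ∀ τ0, (f1 τ0).depth ≤ q * s + s := by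
    intro τ0
    show (if TV G s g τ0 then askF (frF q s τ0) (f2 τ0) else .leaf true).depth ≤ q * s + s
    split_ifs with h
    · have h1 := askF_depth (frF q s τ0) (f2 τ0) s (d2 τ0)
      have h2 := frF_card q s τ0
      omega
    · exact Nat.zero_le _
  refine ⟨askF (S g) f1, ?_, ?_⟩
  · have h1 := askF_depth (S g) f1 (q * s + s) d1
    have h2 := hSs g
    refine le_trans (Nat.mul_le_mul_right M ?_) hM
    calc (askF (S g) f1).depth ≤ s + (q * s + s) := h1.trans (Nat.add_le_add_right h2 _)
      _ = (q + 2) * s := by ring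
  · intro π b' hπ hout
    obtain ⟨hgc, hout1⟩ := (askF_out hπ _ _ _).mp hout
    set τ0 := mt (S g) π with hτ0
    obtain ⟨j0, hj0⟩ := hg
    simp only [Det, if_true]
    by_cases hT : TV G s g τ0
    · have e1 : f1 τ0 = askF (frF q s τ0) (f2 τ0) := if_pos hT
      rw [e1] at hout1
      obtain ⟨hfc, hout2⟩ := (askF_out hπ _ _ _).mp hout1
      set Q := mt (frF q s τ0) π with hQdef
      have hτ0π : τ0 ⊆ π := mt_subset _ _
      have hQπ : Q ⊆ π := mt_subset _ _
      have hτ0card : τ0.card ≤ s := (card_mt_le hπ _).trans (hSs g)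
      have hcovcard : (cov τ0).card ≤ q * s := by
        rw [card_cov (hπ.mono hτ0π)]
        exact Nat.mul_le_mul_left q hτ0card
      obtain ⟨hf1, hf2⟩ := frF_spec (q := q) (s := s) (τ := τ0) (by
        have : q * (3 * s) = q * s + q * s + q * s := by ring
        omega)
      have hdis : Disjoint τ0 Q := by
        refine Finset.disjoint_left.mpr (fun B hB hB' => ?_)
        obtain ⟨-, v, hv, hvB⟩ := mem_mt.mp hB'
        exact (mem_sdiff.mp (hf1 hv)).2 (mem_cov.mpr ⟨B, hB, hvB⟩)
      have hQs : s ≤ Q.card := by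
        have h1 : (frF q s τ0).card ≤ (cov Q).card := card_le_card (cov_mt hfc)
        rw [hf2, card_cov (hπ.mono hQπ)] at h1
        exact Nat.le_of_mul_le_mul_left h1 (by omega)
      have hcg : Cov g τ0 := ⟨S g, hS g, cov_mt hgc⟩
      have hex := exists_moved G s hcg hT (by
        refine le_trans (Nat.add_le_add_right (Nat.mul_le_mul_left q ?_) 2) hroom
        omega) (hπ.mono (union_subset hτ0π hQπ)) hdis hQs
      have e2 : wit G s S g (τ0 ∪ Q) = covset S hex.choose := by
        unfold wit
        rw [dif_pos hex]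
      obtain ⟨hwc, -⟩ := (askF_out hπ _ _ _).mp hout2
      rw [e2] at hwc
      obtain ⟨b, hxb, σ, hσs, hσ, hLt⟩ := hex.choose_spec
      set x := hex.choose with hx
      have hσπ : σ ⊆ π := hσ.trans (union_subset hτ0π hQπ)
      obtain ⟨j, hj⟩ := hl x b hxb
      refine ⟨j, ?_⟩
      rw [hj]
      refine det_lit hq hπ x hwc ?_
      clear_value x
      rcases x with A | h
      · obtain ⟨l1, l2⟩ := hLt
        simp only [vx]
        rw [← l2]
        refine ⟨fun hA => ?_, fun hA => hσπ hA⟩
        obtain ⟨v, hv⟩ : A.1.Nonempty := by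
          rw [← card_pos, A.2]; omega
        obtain ⟨B, hB, hvB⟩ := mem_cov.mp (l1 hv)
        rw [hπ.eq_of_mem hA (hσπ hB) hv hvB]
        exact hB
      · obtain ⟨l1, l2⟩ := hLt
        simp only [vx]
        rw [← l2]
        simp only [covset, Sum.elim_inr] at hwc
        have hmc : (mt (S h) π).card ≤ s := (card_mt_le hπ _).trans (hSs h)
        have hcm : Cov h (mt (S h) π) := ⟨S h, hS h, cov_mt hwc⟩
        constructor
        · intro hV
          refine TV_persist G s hq hcm (hπ.mono (union_subset (mt_subset _ _) hσπ)) ?_ hV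
          refine le_trans (Nat.add_le_add_right (Nat.mul_le_mul_left q ?_) 2) hroom
          omega
        · intro hV
          refine TV_persist G s hq l1 (hπ.mono (union_subset hσπ (mt_subset _ _))) ?_ hV
          refine le_trans (Nat.add_le_add_right (Nat.mul_le_mul_left q ?_) 2) hroom
          omega
    · refine ⟨j0, ?_⟩
      rw [hj0]
      simp only [Det, Bool.not_true]
      refine det_gate hπ hgc ?_
      simp only [Bool.false_eq_true, iff_false]
      exact hT

include hS hSs hqs in
/-- the derivations with all kinds of extension variables are derivations with decision trees -/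
theorem _root_.Pool.Agent.J6H7.GX.MDer.toEDer (hq : 1 ≤ q) (hroom : q * (3 * s) + 2 ≤ N) {c M M' : ℕ} (hMM : M' ≤ M)
    (hM : (q + 2) * s * M' ≤ N) {𝒰 : Finset (Fm p (XVar q N (E ⊕ I) k))}
    {φ : Fm p (XVar q N (E ⊕ I) k)} (h : MDer c M X G 𝒰 φ) :
    EDer c M' (mixSys G s S X) 𝒰 φ := by
  induction h with
  | clause hmem hax => exact .clause hmem hax
  | tree hmem hax => exact .tree hmem (hax.toTreeAx hMM)
  | gate₁ g x b hx hmem => exact .tree hmem (gate₁_treeAx hS hSs hqs hq hM hx)
  | gate₂ g t φs hmem hg hl => exact .tree hmem (gate₂_treeAx hS hSs hqs hq hroom hM hg hl)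
  | def₁ j hmem => exact .def₁ (X := mixSys G s S X) j hmem
  | def₂ j hmem => exact .def₂ (X := mixSys G s S X) j hmem
  | inf P Q hmem hP hQ hQU _ hinf ih => exact .inf P Q hmem hP hQ hQU ih hinf

end sys

end Pool.Agent.J6H7.GX.Mix
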